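import Pool.Agent.ISO.StmtsZ
import Pool.Agent.Helper48_OMP.Hens

/-!
# Squad ISO, row ZPB
-/

set_option autoImplicit false

namespace Pool.Agent.ISO.Z.H30

open PowerSeries Finset Pool.Agent.Helper6_Mono Pool.Agent.Helper32_OMP Pool.Agent.ISO

theorem zpb : ZpbStmt := by
  classical
  intro k _ σ _ p ψ hcrd S _ _ m v hv
  obtain ⟨hc, hli⟩ := hcrd
  let F : σ → MvPolynomial (Option σ) k := fun i =>
    MvPolynomial.rename some (ψ i) - MvPolynomial.C (p i)
  have hat : ∀ i, at0 (F i) = ψ i - MvPolynomial.C (p i) := by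
    intro i
    have h1 : MvPolynomial.aeval (fun o : Option σ => o.elim (0 : MvPolynomial σ k) MvPolynomial.X)
        (MvPolynomial.rename some (ψ i)) = ψ i := by
      rw [MvPolynomial.aeval_rename]
      exact MvPolynomial.aeval_X_left_apply (ψ i)
    show MvPolynomial.aeval _ (MvPolynomial.rename some (ψ i) - MvPolynomial.C (p i)) = _
    rw [map_sub, h1, MvPolynomial.aeval_C]
    rfl
  have hcc : ∀ i, MvPolynomial.constantCoeff (ψ i - MvPolynomial.C (p i)) = 0 := by
    intro i
    rw [map_sub, MvPolynomial.constantCoeff_C, hc, sub_self]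
  have h0 : ∀ i, MvPolynomial.aeval (0 : σ → S) (at0 (F i)) = 0 := by
    intro i
    rw [hat, MvPolynomial.aeval_zero, hcc, map_zero]
  have hmat : (Matrix.of fun i i' : σ => MvPolynomial.aeval (0 : σ → S)
      (MvPolynomial.pderiv ((Function.Embedding.refl σ) i') (at0 (F i)))) =
      (Matrix.of fun i i' : σ => MvPolynomial.coeff (Finsupp.single i' 1) (ψ i)).map
        (algebraMap k S) := by
    ext i i'
    simp only [Matrix.of_apply, Matrix.map_apply, Function.Embedding.refl_apply]
    rw [hat, MvPolynomial.aeval_zero, map_sub, MvPolynomial.pderiv_C, sub_zero]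
    congr 1
    rw [MvPolynomial.constantCoeff_eq, MvPolynomial.coeff_pderiv]
    simp
  have hdet : IsUnit (Matrix.of fun i i' : σ => MvPolynomial.aeval (0 : σ → S)
      (MvPolynomial.pderiv ((Function.Embedding.refl σ) i') (at0 (F i)))).det := by
    rw [hmat]
    have h2 : IsUnit (Matrix.of fun i i' : σ => MvPolynomial.coeff (Finsupp.single i' 1) (ψ i)) := by
      rw [← Matrix.linearIndependent_rows_iff_isUnit]
      exact hli
    have h3 := (Matrix.isUnit_iff_isUnit_det _).mp h2
    have h4 := h3.map (algebraMap k S)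
    rw [RingHom.map_det] at h4
    exact h4
  obtain ⟨γ, ⟨g1, g2, -, g4⟩, huni⟩ := Pool.Agent.Helper32_OMP.H48.hens k σ σ F
    (Function.Embedding.refl σ) S 0 h0 hdet m v (fun _ => 0) hv
  have hev : ∀ (γ : σ → S⟦X⟧) (i : σ), evt (F i) γ =
      MvPolynomial.aeval γ (ψ i) - C (algebraMap k S (p i)) := by
    intro γ i
    have h1 : MvPolynomial.aeval (fun o : Option σ => o.elim (PowerSeries.X : S⟦X⟧) γ)
        (MvPolynomial.rename some (ψ i)) = MvPolynomial.aeval γ (ψ i) := by
      rw [MvPolynomial.aeval_rename]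
      rfl
    show MvPolynomial.aeval _ (MvPolynomial.rename some (ψ i) - MvPolynomial.C (p i)) = _
    rw [map_sub, h1, MvPolynomial.aeval_C, PowerSeries.algebraMap_apply]
  refine ⟨γ, ⟨g1, g2, fun l j hj => ?_⟩, ?_⟩
  · rw [← hev]
    exact g4 l j hj
  · rintro δ ⟨d1, d2, d3⟩
    refine huni δ ⟨d1, d2, ?_, ?_⟩
    · intro l hl
      exact absurd ⟨l, rfl⟩ hl
    · intro l j hj
      rw [hev]
      exact d3 l j hj

end Pool.Agent.ISO.Z.H30

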