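import Pool.Agent.ISO.StmtsM

/-!
# ISO, row ZRM (helper30)
-/

namespace Pool.Agent.ISO.H30

open PowerSeries

theorem zrm_core (R₁ R₂ : Type 1) [CommRing R₁] [CommRing R₂] (L₁ : R₁ˣ) (L₂ : R₂ˣ) (e : R₂)
    (he : e * e = e) (ρ : R₁ →+* R₂ ⧸ Ideal.span {1 - e})
    (hL : ρ (L₁ : R₁) = Ideal.Quotient.mk _ (L₂ : R₂)) (S : Finset (ℤ × ℕ))
    (hS : ∀ q ∈ S, 0 < q.2) (F : PowerSeries R₁)
    (hF : F ∈ Algebra.adjoin R₁ {x : PowerSeries R₁ | x = PowerSeries.X ∨ ∃ q ∈ S,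
      x * (1 - PowerSeries.C ((L₁ ^ q.1 : R₁ˣ) : R₁) * PowerSeries.X ^ q.2) = 1})
    (G : PowerSeries R₂)
    (hG : ∀ m, Ideal.Quotient.mk (Ideal.span {1 - e}) (PowerSeries.coeff m G) =
      ρ (PowerSeries.coeff m F)) :
    PowerSeries.C e * G ∈ Algebra.adjoin R₂ {x : PowerSeries R₂ | x = PowerSeries.X ∨ ∃ q ∈ S,
      x * (1 - PowerSeries.C ((L₂ ^ q.1 : R₂ˣ) : R₂) * PowerSeries.X ^ q.2) = 1} := by
  set q := Ideal.Quotient.mk (Ideal.span {1 - e}) with hq
  have hz : ∀ a : ℤ, ρ ((L₁ ^ a : R₁ˣ) : R₁) = q ((L₂ ^ a : R₂ˣ) : R₂) := by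
    intro a
    have h1 : Units.map (ρ : R₁ →* R₂ ⧸ Ideal.span {1 - e}) L₁ = Units.map (q : R₂ →* R₂ ⧸ Ideal.span {1 - e}) L₂ := by
      apply Units.ext
      rw [Units.coe_map, Units.coe_map]
      exact hL
    have h2 : Units.map (ρ : R₁ →* R₂ ⧸ Ideal.span {1 - e}) (L₁ ^ a) = Units.map (q : R₂ →* R₂ ⧸ Ideal.span {1 - e}) (L₂ ^ a) := by
      rw [map_zpow, map_zpow, h1]
    have h3 := congrArg Units.val h2
    rw [Units.coe_map, Units.coe_map] at h3
    exact h3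
  have claim : ∀ F ∈ Algebra.adjoin R₁ {x : PowerSeries R₁ | x = PowerSeries.X ∨ ∃ q ∈ S,
      x * (1 - PowerSeries.C ((L₁ ^ q.1 : R₁ˣ) : R₁) * PowerSeries.X ^ q.2) = 1},
      ∃ H ∈ Algebra.adjoin R₂ {x : PowerSeries R₂ | x = PowerSeries.X ∨ ∃ q ∈ S,
      x * (1 - PowerSeries.C ((L₂ ^ q.1 : R₂ˣ) : R₂) * PowerSeries.X ^ q.2) = 1},
      PowerSeries.map q H = PowerSeries.map ρ F := by
    intro F hF
    induction hF using Algebra.adjoin_induction with
    | mem x hx =>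
      rcases hx with rfl | ⟨ab, hab, hx⟩
      · exact ⟨PowerSeries.X, Algebra.subset_adjoin (Or.inl rfl), by
          rw [PowerSeries.map_X, PowerSeries.map_X]⟩
      · have hu : IsUnit (1 - PowerSeries.C ((L₂ ^ ab.1 : R₂ˣ) : R₂) * PowerSeries.X ^ ab.2 :
            PowerSeries R₂) := by
          rw [PowerSeries.isUnit_iff_constantCoeff]
          have h0 : ab.2 ≠ 0 := (hS ab hab).ne'
          simp [h0]
        obtain ⟨y, hy⟩ := hu.exists_left_inv
        refine ⟨y, Algebra.subset_adjoin (Or.inr ⟨ab, hab, hy⟩), ?_⟩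
        have h1 : PowerSeries.map q y * PowerSeries.map q
            (1 - PowerSeries.C ((L₂ ^ ab.1 : R₂ˣ) : R₂) * PowerSeries.X ^ ab.2) = 1 := by
          rw [← map_mul, hy, map_one]
        have h2 : PowerSeries.map ρ x * PowerSeries.map ρ
            (1 - PowerSeries.C ((L₁ ^ ab.1 : R₁ˣ) : R₁) * PowerSeries.X ^ ab.2) = 1 := by
          rw [← map_mul, hx, map_one]
        have h3 : PowerSeries.map q
            (1 - PowerSeries.C ((L₂ ^ ab.1 : R₂ˣ) : R₂) * PowerSeries.X ^ ab.2) =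
            PowerSeries.map ρ
            (1 - PowerSeries.C ((L₁ ^ ab.1 : R₁ˣ) : R₁) * PowerSeries.X ^ ab.2) := by
          rw [map_sub, map_sub, map_mul, map_mul, map_one, map_one, map_pow, map_pow,
            PowerSeries.map_X, PowerSeries.map_X, PowerSeries.map_C, PowerSeries.map_C, hz]
        rw [h3] at h1
        rw [mul_comm] at h2
        exact left_inv_eq_right_inv h1 h2
    | algebraMap r =>
      obtain ⟨s, hs⟩ := Ideal.Quotient.mk_surjective (ρ r)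
      refine ⟨algebraMap R₂ _ s, Subalgebra.algebraMap_mem _ s, ?_⟩
      have e1 : ∀ (R : Type 1) [CommRing R] (r : R), algebraMap R (PowerSeries R) r =
        PowerSeries.C r := fun R _ r => rfl
      rw [e1, e1, PowerSeries.map_C, PowerSeries.map_C]
      exact congrArg _ hs
    | add x y _ _ hx hy =>
      obtain ⟨H1, h1, h1'⟩ := hx
      obtain ⟨H2, h2, h2'⟩ := hy
      exact ⟨H1 + H2, Subalgebra.add_mem _ h1 h2, by rw [map_add, map_add, h1', h2']⟩
    | mul x y _ _ hx hy =>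
      obtain ⟨H1, h1, h1'⟩ := hx
      obtain ⟨H2, h2, h2'⟩ := hy
      exact ⟨H1 * H2, Subalgebra.mul_mem _ h1 h2, by rw [map_mul, map_mul, h1', h2']⟩
  obtain ⟨H, hH, hHF⟩ := claim F hF
  have key : PowerSeries.C e * G = PowerSeries.C e * H := by
    ext m
    rw [PowerSeries.coeff_C_mul, PowerSeries.coeff_C_mul]
    have h1 : q (PowerSeries.coeff m H) = q (PowerSeries.coeff m G) := by
      rw [hG, ← PowerSeries.coeff_map, hHF, PowerSeries.coeff_map]
    have h2 : PowerSeries.coeff m H - PowerSeries.coeff m G ∈ Ideal.span {1 - e} :=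
      Ideal.Quotient.eq.1 h1
    rw [Ideal.mem_span_singleton'] at h2
    obtain ⟨t, ht⟩ := h2
    have h3 : e * PowerSeries.coeff m H - e * PowerSeries.coeff m G = 0 := by
      rw [← mul_sub, ← ht]
      linear_combination (-t) * he
    exact (sub_eq_zero.1 h3).symm
  rw [key]
  exact Subalgebra.mul_mem _ (Subalgebra.algebraMap_mem _ e) hH

theorem zrm : ZrmStmt := by
  intro R₁ R₂ _ _ L₁ L₂ e he ρ hL S hS F hF G hG
  exact zrm_core R₁ R₂ L₁ L₂ e he ρ hL S hS F hF G hG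

end Pool.Agent.ISO.H30
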